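import Pool.Agent.H526R2.LS.Apsp

set_option autoImplicit false

/-! # Locally symmetric networks for all-pairs shortest paths

A network reads the weight matrix `W` of a directed graph on the vertex set `V` (`⊤` = no arc). Its
other gates compute arbitrary functions of the multiset of their inputs, with values in an arbitrary
set `K` and unbounded fan-in; there is one output gate for every ordered pair of vertices. It is
symmetric on a block of five vertices if every even permutation of the block (fixing all the other
vertices) extends to an automorphism of the network.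

A random network which for every directed graph with unit weights computes all the distances
correctly with probability at least `1 - ε`, and all of whose members are symmetric on the same `r`
disjoint blocks, satisfies `E [s (2 log_5 s + 1) ^ 3] ≥ (1 - 2 ε) (r - 2) ^ 3`, where `s` is the number
of gates. -/

namespace Pool.Agent.Results.MP_885423_lc.LocalSymmetry

open Pool.Agent.H526R2.LS

open Classical in
theorem result (V K : Type) [Fintype V] (enc : ℕ∞ → K) (dec : K → ℕ∞) (r : ℕ)
    (ι : Fin r × Fin 5 ↪ V) (Ω : Type) [Fintype Ω] (p : Ω → ℝ)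
    (hp : ∀ ω, 0 ≤ p ω) (hp1 : ∑ ω, p ω = 1)
    (Gt : Ω → Type) [∀ ω, Fintype (Gt ω)] (N : ∀ ω, Net (V × V) K (V × V) (Gt ω))
    (hsym : ∀ ω, (N ω).SymBlocksP pairPerm ι)
    (ε : ℝ) (hε : 2 * ε ≤ 1)
    (herr : ∀ W : V → V → ℕ∞, (∀ u v, W u v = 1 ∨ W u v = ⊤) →
      ∑ ω with ¬ (N ω).APSPOK enc dec W, p ω ≤ ε) :
    (1 - 2 * ε) * ((r - 2 : ℕ) : ℝ) ^ 3 ≤
      ∑ ω, p ω * ((Fintype.card (Gt ω) : ℝ) *
        ((2 * Nat.log 5 (Fintype.card (Gt ω)) + 1 : ℕ) : ℝ) ^ 3) := by
  have h := apsp_lower (B := Fin 5) (by rw [Fintype.card_fin]) enc dec ι p hp hp1 Gt N hsym ε hε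
    (fun W hW => by convert herr W hW)
  have e : r + 1 - 3 = r - 2 := by omega
  rwa [e] at h

end Pool.Agent.Results.MP_885423_lc.LocalSymmetry
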