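import Mathlib
import Pool.Agent.H587R2.MRB.APSP

/-!
# APSP for monotone real programs with few tests

A program works with real registers, which contain the weights of a complete directed graph on `n`
vertices at the start.  It may replace the contents of a register by any nondecreasing real
function of the contents of any number `k` of registers (cost `k`), and it may test whether the
contents of a register is less than a constant and branch (cost `0`).

Let `0 < δ ≤ 1 / 2`, `1 ≤ α`, `2 * α < W` and `10000 * m ≤ δ ^ 3 * n ^ 2`.  If a randomised program,
all of whose deterministic programs have at most `m` leaves (`m = 2 ^ t` for at most `t` tests per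
run), approximates for all weights in `{1, W}` every single distance within the factor `α` with
probability at least `1 / 2 + δ`, then its expected cost is at least
`δ ^ (5 / 2) * n ^ 3 / (400 * m ^ (3 / 2))` for some weights in `{1, W}`.

So without tests the cost is at least a constant times `n ^ 3`, and the Floyd-Warshall algorithm
(`n ^ 3` gates `min (a, b + c)`) is optimal up to a constant factor, even if arbitrary
nondecreasing functions of many registers, randomisation and large approximation factors are
allowed; with `o(log n)` tests the cost is `n ^ (3 - o(1))`.

Proof.  For disjoint sets `I`, `K`, `J` of vertices take the true points `t_{ijk}`, where only the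
edges `(i, k)` and `(k, j)` have weight `1`, and for `T ⊆ K` the false points `z_{ijT}`, where the
edges `(i, l)`, `l ∉ T`, and `(l, j)`, `l ∈ T`, have weight `W` and all other edges from `I` to `K`
and from `K` to `J` have weight `1`.  For a register and a triple `(i, j, k)` let `D` be the set of
all `T` such that the contents is less at `t_{ijk}` than at `z_{ijT}`.  The triple is mixed for the
register if `D` contains sets `T` with and without `k`.  It is mixed for the output `(i, j)` and
not mixed for the inputs.  Charge the pair `((i, j, k), T)` to a wire from a gate for which the
triple is mixed to a register for which it is not mixed.  The main point is that at most `2 ^ |K|`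
pairs are charged to every wire: the triples of a wire have different `k`, for any two of them one
of the sets `D` is contained in a half cube in the direction of the other `k`, and such sets `D`
can be made disjoint (tournament lemma).  So there are at least `|I| * |J| * |K|` wires.  For the
tests, `P ^ 2` such families are put into a chain of inputs so that the outcomes of the tests are
the same in most of them.
-/

namespace Pool.Agent.Results.MP_885423_lc.MonotoneRealPrograms

open Pool.Agent.H587R2.MRB

theorem result (n m W : ℕ) (δ α : ℝ) (hδ : 0 < δ) (hδ2 : δ ≤ 1 / 2)
    (hn : 10000 * (m : ℝ) ≤ δ ^ 3 * n ^ 2) (hα : 1 ≤ α) (hW : 2 * α < W)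
    (Ω : Type) [Fintype Ω] (p : Ω → ℝ) (P : Ω → Prog (Fin n × Fin n) (Fin n × Fin n))
    (hP : SolvesAPSP W α δ p P) (hm : ∀ ω, (P ω).leaves ≤ m) :
    ∃ w : Fin n → Fin n → ℕ, (∀ u v, w u v = 1 ∨ w u v = W) ∧
      δ ^ (5 / 2 : ℝ) * (n : ℝ) ^ 3 ≤ 400 * (m : ℝ) ^ (3 / 2 : ℝ) * expCost p P w :=
  apsp_bound hδ hδ2 hn hα hW p P hP hm

end Pool.Agent.Results.MP_885423_lc.MonotoneRealPrograms
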