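import Pool.Agent.H537R2.Apsr.Param

/-!
# The APSP hypothesis for algorithms with bounded memory

Every non-uniform randomized algorithm with at most `2 ^ S` states of its memory which outputs
all distances in directed graphs with `N` vertices, all of whose edges have weight one, within `T`
steps, with probability more than `1/2`, satisfies `N ^ 4 < c * (T * S * (log₂ N) ^ 10)`.
-/

namespace Pool.Agent.Results.MP_885423_lc.SpaceBoundedAPSP

open Pool.Agent.H537R2.Apsp

/-- There is a constant `c` such that for all large `N`, all `S ≥ log₂ N` and all `T`: if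
`P r`, for a uniformly random `r : Ω`, is a non-uniform randomized algorithm with a set `σ` of at
most `2 ^ S` memory states, reading one entry of the matrix of weights per step, which for every
directed graph on `N` vertices with all edge weights equal to `1` outputs exactly all distances
within `T` steps with probability more than `1/2`, then `N ^ 4 < c * (T * S * (log₂ N) ^ 10)`. -/
theorem result : ∃ c : ℕ, ∀ᶠ N : ℕ in Filter.atTop, ∀ S T : ℕ, Nat.log 2 N ≤ S →
    ∀ (σ : Type) (_ : Fintype σ), Fintype.card σ ≤ 2 ^ S →
    ∀ (Ω : Type) (_ : Fintype Ω)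
      (P : Ω → Prog σ (Fin N × Fin N) ℕ∞ ((Fin N × Fin N) × ℕ∞)),
      (∀ w : Graph N, (∀ p, w p = 1 ∨ w p = ⊤) →
        Nat.card Ω < 2 * Nat.card {r : Ω // SolvesAPSP (P r) T w}) →
      N ^ 4 < c * (T * S * (Nat.log 2 N) ^ 10) :=
  Pool.Agent.H537R2.Apsr.rand_bound

end Pool.Agent.Results.MP_885423_lc.SpaceBoundedAPSP
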